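import Mathlib

set_option autoImplicit false

namespace Pool.Agent.H.MP_f867b0_co

open Finset Classical

variable {ι Λ : Type*}

/-- data of one strip -/
structure Strip (ι Λ : Type*) where
  S : Finset ι
  key : ι → ℝ
  isA : ι → Prop
  lab : ι → Λ
  σ : ι → ℕ
  C : ι → ι → Prop
  P : Set (Sym2 Λ)
  inj : ∀ i ∈ S, ∀ j ∈ S, key i = key j → i = j
  mono : ∀ i ∈ S, ∀ j ∈ S, key i < key j → σ i ≤ σ j
  le1 : ∀ i, σ i ≤ 1
  col : ∀ i j, C i j → ¬ (isA i ↔ isA j)
  ncr : ∀ i ∈ S, ∀ j ∈ S, ∀ i' ∈ S, ∀ j' ∈ S, C i j → C i' j' → key i < key i' → key i' < key j →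
    key j < key j' → False
  same : ∀ i ∈ S, ∀ j ∈ S, key i < key j → σ i = σ j → (∀ k ∈ S, ¬ (key i < key k ∧ key k < key j)) →
    ¬ isA i → ¬ isA j → lab i = lab j
  inP : ∀ i ∈ S, ∀ j ∈ S, key i < key j → σ i = σ j → (∀ k ∈ S, ¬ (key i < key k ∧ key k < key j)) →
    ¬ (isA i ↔ isA j) → s(lab i, lab j) ∈ P

namespace Strip

variable (D : Strip ι Λ)

noncomputable def btw (l r : ι) : Finset ι := D.S.filter fun k => D.key l < D.key k ∧ D.key k < D.key r

noncomputable def cnt (l r : ι) : ℕ := ((D.btw l r).filter D.isA).card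

noncomputable def HH (l r : ι) : Finset (Sym2 Λ) :=
  (((D.S ×ˢ D.S).filter fun p => D.key l ≤ D.key p.1 ∧ D.key p.1 < D.key p.2 ∧ D.key p.2 ≤ D.key r ∧
    (D.C p.1 p.2 ∨ (p.1 = l ∧ p.2 = r ∧ ¬ (D.isA l ↔ D.isA r)))).image
      fun p => s(D.lab p.1, D.lab p.2)).filter fun e => e ∉ D.P

lemma mem_H {l r : ι} {e : Sym2 Λ} : e ∈ D.HH l r ↔ e ∉ D.P ∧ ∃ i ∈ D.S, ∃ j ∈ D.S,
    D.key l ≤ D.key i ∧ D.key i < D.key j ∧ D.key j ≤ D.key r ∧
    (D.C i j ∨ (i = l ∧ j = r ∧ ¬ (D.isA l ↔ D.isA r))) ∧ s(D.lab i, D.lab j) = e := by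
  unfold HH
  rw [mem_filter, mem_image]
  constructor
  · rintro ⟨⟨⟨i, j⟩, hp, rfl⟩, h⟩
    rw [mem_filter, mem_product] at hp
    exact ⟨h, i, hp.1.1, j, hp.1.2, hp.2.1, hp.2.2.1, hp.2.2.2.1, hp.2.2.2.2, rfl⟩
  · rintro ⟨h, i, hi, j, hj, h1, h2, h3, h4, rfl⟩
    exact ⟨⟨(i, j), by rw [mem_filter, mem_product]; exact ⟨⟨hi, hj⟩, h1, h2, h3, h4⟩, rfl⟩, h⟩

lemma cnt_split {l p r : ι} (hp : p ∈ D.S) (h1 : D.key l < D.key p) (h2 : D.key p < D.key r) :
    D.cnt l r = D.cnt l p + D.cnt p r + if D.isA p then 1 else 0 := by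
  unfold cnt btw
  have e : (if D.isA p then 1 else 0) = (({p} : Finset ι).filter D.isA).card := by
    rw [filter_singleton]; split_ifs <;> simp
  rw [e, ← card_union_of_disjoint, ← card_union_of_disjoint]
  · congr 1
    ext k
    simp only [mem_filter, mem_union, mem_singleton]
    constructor
    · rintro ⟨⟨hk, a, b⟩, c⟩
      rcases lt_trichotomy (D.key k) (D.key p) with h | h | h
      · exact Or.inl (Or.inl ⟨⟨hk, a, h⟩, c⟩)
      · exact Or.inr ⟨D.inj k hk p hp h, c⟩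
      · exact Or.inl (Or.inr ⟨⟨hk, h, b⟩, c⟩)
    · rintro ((⟨⟨hk, a, b⟩, c⟩ | ⟨⟨hk, a, b⟩, c⟩) | ⟨rfl, c⟩)
      · exact ⟨⟨hk, a, b.trans h2⟩, c⟩
      · exact ⟨⟨hk, h1.trans a, b⟩, c⟩
      · exact ⟨⟨hp, h1, h2⟩, c⟩
  · rw [disjoint_left]
    intro k hk hk'
    simp only [mem_filter, mem_union, mem_singleton] at hk hk'
    obtain ⟨rfl, -⟩ := hk'
    rcases hk with ⟨⟨-, -, b⟩, -⟩ | ⟨⟨-, a, -⟩, -⟩
    · exact lt_irrefl _ b
    · exact lt_irrefl _ a
  · rw [disjoint_left]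
    intro k hk hk'
    simp only [mem_filter] at hk hk'
    exact lt_asymm hk.1.2.2 hk'.1.2.1

lemma split {l r : ι} (hl : l ∈ D.S) (hr : r ∈ D.S) (hne : (D.btw l r).Nonempty) :
    ∃ p ∈ D.btw l r, ∀ i ∈ D.S, ∀ j ∈ D.S, D.key l ≤ D.key i → D.key j ≤ D.key r → D.C i j →
      D.key i < D.key p → D.key p < D.key j → i = l ∧ j = r := by
  by_cases h : ((D.btw l r).filter fun j => D.C l j).Nonempty
  · obtain ⟨p, hp, hmax⟩ := exists_max_image _ D.key h
    rw [mem_filter] at hp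
    refine ⟨p, hp.1, fun i hi j hj h1 h2 hc h3 h4 => ?_⟩
    have hp' := mem_filter.1 hp.1
    rcases h1.lt_or_eq with h1 | h1
    · exact (D.ncr l hl p hp'.1 i hi j hj hp.2 hc h1 h3 h4).elim
    · have e := D.inj l hl i hi h1
      subst e
      refine ⟨rfl, ?_⟩
      rcases h2.lt_or_eq with h2 | h2
      · have := hmax j (mem_filter.2 ⟨mem_filter.2 ⟨hj, h3.trans h4, h2⟩, hc⟩)
        exact absurd h4 (not_lt.2 this)
      · exact D.inj j hj r hr h2
  · obtain ⟨p, hp, hmin⟩ := exists_min_image _ D.key hne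
    refine ⟨p, hp, fun i hi j hj h1 h2 hc h3 h4 => ?_⟩
    have hp' := mem_filter.1 hp
    rcases h1.lt_or_eq with h1 | h1
    · have := hmin i (mem_filter.2 ⟨hi, h1, h3.trans hp'.2.2⟩)
      exact absurd h3 (not_lt.2 this)
    · have e := D.inj l hl i hi h1
      subst e
      refine ⟨rfl, ?_⟩
      rcases h2.lt_or_eq with h2 | h2
      · exact (h ⟨j, mem_filter.2 ⟨mem_filter.2 ⟨hj, h3.trans h4, h2⟩, hc⟩⟩).elim
      · exact D.inj j hj r hr h2

lemma main (N : ℕ) : ∀ l ∈ D.S, ∀ r ∈ D.S, D.key l < D.key r → (D.btw l r).card ≤ N →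
    (D.HH l r).card ≤ D.cnt l r + (D.σ r - D.σ l) ∧
    (¬ D.isA l → ¬ D.isA r → (D.HH l r).card ≤ D.cnt l r + (D.σ r - D.σ l) - 1 ∧
      (D.cnt l r + (D.σ r - D.σ l) = 0 → D.lab l = D.lab r)) := by
  induction N using Nat.strong_induction_on with
  | _ N ih =>
  intro l hl r hr hlr hN
  have hσ := D.mono l hl r hr hlr
  rcases (D.btw l r).eq_empty_or_nonempty with he | hne
  · have hno : ∀ k ∈ D.S, ¬ (D.key l < D.key k ∧ D.key k < D.key r) := fun k hk h => by
      have : k ∈ D.btw l r := mem_filter.2 ⟨hk, h⟩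
      rw [he] at this; exact notMem_empty _ this
    have hsub : ∀ e ∈ D.HH l r, e = s(D.lab l, D.lab r) ∧ ¬ (D.isA l ↔ D.isA r) ∧ e ∉ D.P := by
      intro e hE
      obtain ⟨hP, i, hi, j, hj, h1, h2, h3, h4, rfl⟩ := D.mem_H.1 hE
      have e1 : i = l := by
        rcases h1.lt_or_eq with h1 | h1
        · exact (hno i hi ⟨h1, h2.trans_le h3⟩).elim
        · exact (D.inj l hl i hi h1).symm
      have e2 : j = r := by
        rcases h3.lt_or_eq with h3 | h3
        · exact (hno j hj ⟨h1.trans_lt h2, h3⟩).elim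
        · exact D.inj j hj r hr h3
      subst e1 e2
      refine ⟨rfl, ?_, hP⟩
      rcases h4 with h4 | h4
      · exact D.col _ _ h4
      · exact h4.2.2
    have h1 : (D.HH l r).card ≤ 1 := card_le_one.2 fun a ha b hb => by
      rw [(hsub a ha).1, (hsub b hb).1]
    refine ⟨?_, fun ha hb => ⟨?_, fun h0 => D.same l hl r hr hlr (by omega) hno ha hb⟩⟩
    · by_cases hs : D.σ l = D.σ r
      · have : D.HH l r = ∅ := eq_empty_of_forall_notMem fun e hE => by
          obtain ⟨a, b, c⟩ := hsub e hE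
          exact c (a ▸ D.inP l hl r hr hlr hs hno b)
        rw [this]; simp
      · omega
    · have : D.HH l r = ∅ := eq_empty_of_forall_notMem fun e hE =>
        (hsub e hE).2.1 ⟨fun h => (ha h).elim, fun h => (hb h).elim⟩
      rw [this]; simp
  · obtain ⟨p, hp, hsp⟩ := D.split hl hr hne
    have hp' := mem_filter.1 hp
    obtain ⟨hpS, hlp, hpr⟩ := hp'
    have c1 : (D.btw l p).card < (D.btw l r).card := by
      apply card_lt_card
      refine ⟨fun k hk => ?_, fun hs => ?_⟩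
      · have := mem_filter.1 hk
        exact mem_filter.2 ⟨this.1, this.2.1, this.2.2.trans hpr⟩
      · exact lt_irrefl _ (mem_filter.1 (hs hp)).2.2
    have c2 : (D.btw p r).card < (D.btw l r).card := by
      apply card_lt_card
      refine ⟨fun k hk => ?_, fun hs => ?_⟩
      · have := mem_filter.1 hk
        exact mem_filter.2 ⟨this.1, hlp.trans this.2.1, this.2.2⟩
      · exact lt_irrefl _ (mem_filter.1 (hs hp)).2.1
    obtain ⟨a1, b1⟩ := ih _ (c1.trans_le hN) l hl p hpS hlp le_rfl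
    obtain ⟨a2, b2⟩ := ih _ (c2.trans_le hN) p hpS r hr hpr le_rfl
    have s1 := D.mono l hl p hpS hlp
    have s2 := D.mono p hpS r hr hpr
    have hc := D.cnt_split hpS hlp hpr
    have hsub : ∀ e ∈ D.HH l r, e ∈ D.HH l p ∪ D.HH p r ∨
        (e = s(D.lab l, D.lab r) ∧ ¬ (D.isA l ↔ D.isA r) ∧ e ∉ D.P) := by
      intro e hE
      obtain ⟨hP, i, hi, j, hj, h1, h2, h3, h4, rfl⟩ := D.mem_H.1 hE
      rcases h4 with h4 | ⟨rfl, rfl, h4⟩
      · by_cases q1 : D.key j ≤ D.key p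
        · exact Or.inl (mem_union_left _ (D.mem_H.2 ⟨hP, i, hi, j, hj, h1, h2, q1, Or.inl h4, rfl⟩))
        · by_cases q2 : D.key p ≤ D.key i
          · exact Or.inl (mem_union_right _ (D.mem_H.2 ⟨hP, i, hi, j, hj, q2, h2, h3, Or.inl h4, rfl⟩))
          · obtain ⟨rfl, rfl⟩ := hsp i hi j hj h1 h3 h4 (not_le.1 q2) (not_le.1 q1)
            exact Or.inr ⟨rfl, D.col _ _ h4, hP⟩
      · exact Or.inr ⟨rfl, h4, hP⟩
    have g1 : (D.HH l r).card ≤ (D.HH l p).card + (D.HH p r).card + 1 := by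
      calc (D.HH l r).card ≤ (insert s(D.lab l, D.lab r) (D.HH l p ∪ D.HH p r)).card := by
            apply card_le_card
            intro e hE
            rcases hsub e hE with h | h
            · exact mem_insert_of_mem h
            · rw [h.1]; exact mem_insert_self _ _
        _ ≤ (D.HH l p ∪ D.HH p r).card + 1 := card_insert_le _ _
        _ ≤ _ := by have := card_union_le (D.HH l p) (D.HH p r); omega
    have g2 : ((¬ (D.isA l ↔ D.isA r)) → s(D.lab l, D.lab r) ∉ D.P →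
        s(D.lab l, D.lab r) ∈ D.HH l p ∪ D.HH p r) →
        (D.HH l r).card ≤ (D.HH l p).card + (D.HH p r).card := by
      intro h
      refine le_trans (card_le_card fun e hE => ?_) (card_union_le _ _)
      rcases hsub e hE with h' | h'
      · exact h'
      · rw [h'.1]; exact h h'.2.1 (h'.1 ▸ h'.2.2)
    by_cases hA : D.isA p
    · rw [if_pos hA] at hc
      refine ⟨by omega, fun ha hb => ⟨?_, fun h0 => by omega⟩⟩
      have := g2 fun h => (h ⟨fun h => (ha h).elim, fun h => (hb h).elim⟩).elim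
      omega
    · rw [if_neg hA] at hc
      refine ⟨?_, fun ha hb => ⟨?_, fun h0 => ?_⟩⟩
      · by_cases ha : D.isA l
        · by_cases hb : D.isA r
          · have := g2 fun h => (h ⟨fun _ => hb, fun _ => ha⟩).elim
            omega
          · obtain ⟨u, v⟩ := b2 hA hb
            by_cases h0 : D.cnt p r + (D.σ r - D.σ p) = 0
            · have := g2 fun _ hP => mem_union_left _ (D.mem_H.2 ⟨hP, l, hl, p, hpS, le_rfl, hlp, le_rfl,
                Or.inr ⟨rfl, rfl, fun h => hA (h.1 ha)⟩, by rw [v h0]⟩)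
              omega
            · omega
        · obtain ⟨u, v⟩ := b1 ha hA
          by_cases hb : D.isA r
          · by_cases h0 : D.cnt l p + (D.σ p - D.σ l) = 0
            · have := g2 fun _ hP => mem_union_right _ (D.mem_H.2 ⟨hP, p, hpS, r, hr, le_rfl, hpr, le_rfl,
                Or.inr ⟨rfl, rfl, fun h => hA (h.2 hb)⟩, by rw [v h0]⟩)
              omega
            · omega
          · have := g2 fun h => (h ⟨fun h => (ha h).elim, fun h => (hb h).elim⟩).elim
            omega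
      · have := g2 fun h => (h ⟨fun h => (ha h).elim, fun h => (hb h).elim⟩).elim
        obtain ⟨u, -⟩ := b1 ha hA
        obtain ⟨u', -⟩ := b2 hA hb
        omega
      · rw [(b1 ha hA).2 (by omega), (b2 hA hb).2 (by omega)]

/-- final bound for a strip -/
lemma bound (T : Finset (Sym2 Λ)) (hT : ∀ e ∈ T, e ∉ D.P ∧ ∃ i ∈ D.S, ∃ j ∈ D.S,
    D.key i < D.key j ∧ D.C i j ∧ s(D.lab i, D.lab j) = e) : T.card ≤ (D.S.filter D.isA).card := by
  rcases T.eq_empty_or_nonempty with rfl | ⟨e0, he0⟩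
  · simp
  obtain ⟨-, i0, hi0, j0, hj0, h0, -⟩ := hT e0 he0
  obtain ⟨l, hl, hmin⟩ := exists_min_image D.S D.key ⟨i0, hi0⟩
  obtain ⟨r, hr, hmax⟩ := exists_max_image D.S D.key ⟨i0, hi0⟩
  have hlr : D.key l < D.key r := (hmin i0 hi0).trans_lt (h0.trans_le (hmax j0 hj0))
  have hsub : T.card ≤ (D.HH l r).card := card_le_card fun e hE => by
    obtain ⟨hP, i, hi, j, hj, h1, h2, h3⟩ := hT e hE
    exact D.mem_H.2 ⟨hP, i, hi, j, hj, hmin i hi, h1, hmax j hj, Or.inl h2, h3⟩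
  obtain ⟨a, b⟩ := D.main _ l hl r hr hlr le_rfl
  have s1 := D.le1 r
  have hs : (D.btw l r).filter D.isA ⊆ D.S.filter D.isA := fun k hk => by
    have := mem_filter.1 hk
    exact mem_filter.2 ⟨(mem_filter.1 this.1).1, this.2⟩
  have c0 : D.cnt l r ≤ (D.S.filter D.isA).card := card_le_card hs
  by_cases ha : D.isA l
  · have : D.cnt l r < (D.S.filter D.isA).card := card_lt_card ⟨hs, fun h => by
      have := h (mem_filter.2 ⟨hl, ha⟩)
      exact lt_irrefl _ (mem_filter.1 (mem_filter.1 this).1).2.1⟩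
    omega
  · by_cases hb : D.isA r
    · have : D.cnt l r < (D.S.filter D.isA).card := card_lt_card ⟨hs, fun h => by
        have := h (mem_filter.2 ⟨hr, hb⟩)
        exact lt_irrefl _ (mem_filter.1 (mem_filter.1 this).1).2.2⟩
      omega
    · have := (b ha hb).1
      omega

end Strip

end Pool.Agent.H.MP_f867b0_co
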