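import Pool.Agent.H.MP_f867b0_co.A

set_option autoImplicit false

namespace Pool.Agent.H.MP_f867b0_co

open Finset Classical

structure Arr (ι Λ : Type*) where
  x : ι → ℝ
  h : ι → ℝ
  own : ι → Λ
  A : Λ → Prop
  dis : ∀ i j, i ≠ j → ∀ t, x i ≤ t → t ≤ x i + 1 → x j ≤ t → t ≤ x j + 1 → h i ≠ h j

namespace Arr

variable {ι Λ : Type*} (R : Arr ι Λ)

def cov (i : ι) (t : ℝ) : Prop := R.x i ≤ t ∧ t ≤ R.x i + 1

def sees (i j : ι) : Prop := ∃ u v : ℝ, u < v ∧ (R.x i ≤ u ∧ v ≤ R.x i + 1) ∧ (R.x j ≤ u ∧ v ≤ R.x j + 1) ∧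
  ∀ k, k ≠ i → k ≠ j → ∀ t, u ≤ t → t ≤ v → R.cov k t → R.h k ∉ Set.uIcc (R.h i) (R.h j)

noncomputable def κ (i : ι) : ℤ := ⌈R.x i⌉

lemma κ1 (i : ι) : R.x i ≤ R.κ i := Int.le_ceil _
lemma κ2 (i : ι) : (R.κ i : ℝ) < R.x i + 1 := Int.ceil_lt_add_one _

lemma hne {i j : ι} (hij : i ≠ j) (e : R.κ i = R.κ j) : R.h i ≠ R.h j :=
  R.dis i j hij (R.κ i) (R.κ1 i) (R.κ2 i).le (e ▸ R.κ1 j) (e ▸ (R.κ2 j).le)

def Cons (i j : ι) : Prop := R.κ i = R.κ j ∧ R.h i < R.h j ∧
  ∀ k, R.κ k = R.κ i → ¬ (R.h i < R.h k ∧ R.h k < R.h j)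

lemma cons_sees [Fintype ι] {i j : ι} (H : R.Cons i j) : R.sees i j := by
  obtain ⟨e, hlt, hno⟩ := H
  set s := R.κ i with hs
  let f : ι → ℝ := fun k => if R.κ k ≤ s then (if R.κ k = s then R.x k + 1 - s else 1) else R.x k - s
  have fpos : ∀ k, 0 < f k := by
    intro k
    simp only [f]
    split_ifs with h1 h2
    · have := R.κ2 k; rw [h2] at this; linarith
    · exact one_pos
    · have h3 : s + 1 ≤ R.κ k := by omega
      have h4 : ((s + 1 : ℤ) : ℝ) ≤ R.κ k := by exact_mod_cast h3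
      have := R.κ2 k
      push_cast at h4
      linarith
  obtain ⟨k0, -, hk0⟩ := exists_min_image univ f ⟨i, mem_univ _⟩
  have p0 := fpos k0
  have fi : f i = R.x i + 1 - s := by simp [f, ← hs]
  have fj : f j = R.x j + 1 - s := by simp [f, ← e]
  have bi := hk0 i (mem_univ _)
  have bj := hk0 j (mem_univ _)
  have xi := R.κ1 i
  have xj := R.κ1 j
  rw [← e] at xj
  rw [← hs] at xi
  refine ⟨s + f k0 / 3, s + f k0 / 2, by linarith, ⟨by linarith, by linarith⟩, ⟨by linarith, by linarith⟩,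
    fun k hki hkj t h1 h2 hc hm => ?_⟩
  have bk := hk0 k (mem_univ _)
  have ek : R.κ k = s := by
    by_contra hne
    rcases lt_or_gt_of_ne hne with h | h
    · have h3 : R.κ k + 1 ≤ s := by omega
      have h4 : ((R.κ k + 1 : ℤ) : ℝ) ≤ s := by exact_mod_cast h3
      push_cast at h4
      have := R.κ1 k
      have := hc.2
      linarith
    · have : f k = R.x k - s := by simp [f, not_le.2 h]
      have := hc.1
      linarith
  rw [Set.uIcc_of_le hlt.le] at hm
  exact hno k ek ⟨lt_of_le_of_ne hm.1 (R.hne hki ek).symm, lt_of_le_of_ne hm.2 (R.hne hkj (ek.trans e))⟩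

noncomputable def key (s : ℤ) (i : ι) : ℝ := if R.κ i = s then -Real.exp (-R.h i) else Real.exp (-R.h i)

lemma key_lt {s : ℤ} {i j : ι} (h : R.key s i < R.key s j) :
    (R.κ i = s ∧ R.κ j = s ∧ R.h i < R.h j) ∨ (R.κ i = s ∧ R.κ j ≠ s) ∨
      (R.κ i ≠ s ∧ R.κ j ≠ s ∧ R.h j < R.h i) := by
  unfold key at h
  have p1 := Real.exp_pos (-R.h i)
  have p2 := Real.exp_pos (-R.h j)
  split_ifs at h with h1 h2 h2
  · refine Or.inl ⟨h1, h2, ?_⟩
    have : Real.exp (-R.h j) < Real.exp (-R.h i) := by linarith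
    have := Real.exp_lt_exp.1 this
    linarith
  · exact Or.inr (Or.inl ⟨h1, h2⟩)
  · linarith
  · refine Or.inr (Or.inr ⟨h1, h2, ?_⟩)
    have := Real.exp_lt_exp.1 h
    linarith

lemma key_lt_L {s : ℤ} {i j : ι} (h1 : R.κ i = s) (h2 : R.κ j = s) (h : R.h i < R.h j) :
    R.key s i < R.key s j := by
  unfold key
  rw [if_pos h1, if_pos h2]
  have : Real.exp (-R.h j) < Real.exp (-R.h i) := Real.exp_lt_exp.2 (by linarith)
  linarith

lemma key_lt_R {s : ℤ} {i j : ι} (h1 : R.κ i ≠ s) (h2 : R.κ j ≠ s) (h : R.h j < R.h i) :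
    R.key s i < R.key s j := by
  unfold key
  rw [if_neg h1, if_neg h2]
  exact Real.exp_lt_exp.2 (by linarith)

def C (s : ℤ) (i j : ι) : Prop := ¬ (R.A (R.own i) ↔ R.A (R.own j)) ∧ ∃ t : ℝ, s < t ∧ t < s + 1 ∧
  R.cov i t ∧ R.cov j t ∧ ∀ k, R.cov k t → ¬ (R.h i < R.h k ∧ R.h k < R.h j) ∧ ¬ (R.h j < R.h k ∧ R.h k < R.h i)

def P : Set (Sym2 Λ) := {e | ∃ i j, R.Cons i j ∧ ¬ (R.A (R.own i) ↔ R.A (R.own j)) ∧ s(R.own i, R.own j) = e}

lemma covL {s : ℤ} {k : ι} (h : R.κ k = s) {t t' : ℝ} (h1 : s < t') (h2 : t' ≤ t) (hc : R.cov k t) :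
    R.cov k t' := by
  have := R.κ1 k
  rw [h] at this
  exact ⟨by linarith, h2.trans hc.2⟩

lemma covR {s : ℤ} {k : ι} (h : R.κ k = s + 1) {t t' : ℝ} (h1 : t' < s + 1) (h2 : t ≤ t') (hc : R.cov k t) :
    R.cov k t' := by
  have := R.κ2 k
  rw [h] at this
  push_cast at this
  exact ⟨hc.1.trans h2, by linarith⟩

lemma cons_of {s : ℤ} [Fintype ι] {i j : ι} (hi : R.κ i = s ∨ R.κ i = s + 1) (hj : R.κ j = s ∨ R.κ j = s + 1)
    (hlt : R.key s i < R.key s j)
    (hσ : (if R.κ i = s then 0 else 1 : ℕ) = if R.κ j = s then 0 else 1)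
    (hno : ∀ k ∈ univ.filter (fun i => R.κ i = s ∨ R.κ i = s + 1),
      ¬ (R.key s i < R.key s k ∧ R.key s k < R.key s j)) : R.Cons i j ∨ R.Cons j i := by
  rcases R.key_lt hlt with ⟨a, b, c⟩ | ⟨a, b⟩ | ⟨a, b, c⟩
  · refine Or.inl ⟨a.trans b.symm, c, fun k hk h => ?_⟩
    have hk' := hk.trans a
    exact hno k (mem_filter.2 ⟨mem_univ _, Or.inl hk'⟩) ⟨R.key_lt_L a hk' h.1, R.key_lt_L hk' b h.2⟩
  · rw [if_pos a, if_neg b] at hσ; omega
  · have a' : R.κ i = s + 1 := by omega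
    have b' : R.κ j = s + 1 := by omega
    refine Or.inr ⟨b'.trans a'.symm, c, fun k hk h => ?_⟩
    have hk' := hk.trans b'
    have hk2 : R.κ k ≠ s := by omega
    exact hno k (mem_filter.2 ⟨mem_univ _, Or.inr hk'⟩) ⟨R.key_lt_R a hk2 h.2, R.key_lt_R hk2 b h.1⟩

noncomputable def strip [Fintype ι]
    (hB : ∀ i j, R.sees i j → ¬ R.A (R.own i) → ¬ R.A (R.own j) → R.own i = R.own j) (s : ℤ) :
    Strip ι Λ where
  S := univ.filter fun i => R.κ i = s ∨ R.κ i = s + 1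
  key := R.key s
  isA := fun i => R.A (R.own i)
  lab := R.own
  σ := fun i => if R.κ i = s then 0 else 1
  C := R.C s
  P := R.P
  inj := by
    intro i hi j hj h
    by_contra hne
    have hi := (mem_filter.1 hi).2
    have hj := (mem_filter.1 hj).2
    unfold key at h
    have p1 := Real.exp_pos (-R.h i)
    have p2 := Real.exp_pos (-R.h j)
    split_ifs at h with h1 h2 h2
    · have := Real.exp_injective (neg_injective h)
      exact R.hne hne (h1.trans h2.symm) (neg_injective this)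
    · linarith
    · linarith
    · have := Real.exp_injective h
      exact R.hne hne (by omega) (neg_injective this)
  mono := by
    intro i _ j _ h
    rcases R.key_lt h with ⟨a, b, c⟩ | ⟨a, b⟩ | ⟨a, b, c⟩ <;> simp [a, b]
  le1 := by intro i; split_ifs <;> simp
  col := fun i j h => h.1
  ncr := by
    intro i hi j hj i' hi' j' hj' ⟨_, t, t1, t2, ci, cj, N1⟩ ⟨_, t', t1', t2', ci', cj', N2⟩ k1 k2 k3
    have hi := (mem_filter.1 hi).2
    have hj := (mem_filter.1 hj).2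
    have hi' := (mem_filter.1 hi').2
    have hj' := (mem_filter.1 hj').2
    have ne : ∀ a b : ι, R.key s a < R.key s b → ∀ t, R.cov a t → R.cov b t → R.h a ≠ R.h b :=
      fun a b h t ca cb => R.dis a b (fun e => lt_irrefl _ (e ▸ h)) t ca.1 ca.2 cb.1 cb.2
    rcases R.key_lt k1 with ⟨a1, b1, c1⟩ | ⟨a1, b1⟩ | ⟨a1, b1, c1⟩
    · rcases R.key_lt k2 with ⟨a2, b2, c2⟩ | ⟨a2, b2⟩ | ⟨a2, b2, c2⟩
      · rcases le_total t t' with h | h
        · exact (N1 i' (R.covL b1 t1 h ci')).1 ⟨c1, c2⟩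
        · rcases R.key_lt k3 with ⟨a3, b3, c3⟩ | ⟨a3, b3⟩ | ⟨a3, b3, c3⟩
          · exact (N2 j (R.covL b2 t1' h cj)).1 ⟨c2, c3⟩
          · have u1 := R.covL a1 t1' h ci
            have u2 := R.covL b2 t1' h cj
            have u3 := R.covR (by omega : R.κ j' = s + 1) t2 h cj'
            have n1 := ne i j' (k1.trans (k2.trans k3)) t ci u3
            have n2 := ne j j' k3 t cj u3
            have q1 := (N1 j' u3).1
            have q2 := (N2 j u2).1
            have q3 := (N2 i u1).2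
            rcases lt_or_gt_of_ne n1 with m1 | m1
            · rcases lt_or_gt_of_ne n2 with m2 | m2
              · exact q2 ⟨c2, m2⟩
              · exact q1 ⟨m1, m2⟩
            · exact q3 ⟨m1, c1⟩
          · exact a3 b2
      · rcases R.key_lt k3 with ⟨a3, b3, c3⟩ | ⟨a3, b3⟩ | ⟨a3, b3, c3⟩
        · exact b2 a3
        · exact b2 a3
        · rcases le_total t t' with h | h
          · have u1 := R.covL b1 t1 h ci'
            have u2 := R.covR (by omega : R.κ j = s + 1) t2' h cj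
            rcases lt_or_gt_of_ne (ne i' j k2 t u1 cj) with m | m
            · exact (N1 i' u1).1 ⟨c1, m⟩
            · exact (N2 j u2).2 ⟨c3, m⟩
          · have u1 := R.covL a1 t1' h ci
            have u2 := R.covR (by omega : R.κ j' = s + 1) t2 h cj'
            rcases lt_or_gt_of_ne (ne i j' (k1.trans (k2.trans k3)) t ci u2) with m | m
            · exact (N1 j' u2).1 ⟨m, c3⟩
            · exact (N2 i u1).2 ⟨m, c1⟩
      · exact a2 b1
    · rcases R.key_lt k2 with ⟨a2, b2, c2⟩ | ⟨a2, b2⟩ | ⟨a2, b2, c2⟩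
      · exact b1 a2
      · exact b1 a2
      · rcases R.key_lt k3 with ⟨a3, b3, c3⟩ | ⟨a3, b3⟩ | ⟨a3, b3, c3⟩
        · exact b2 a3
        · exact b2 a3
        · rcases le_total t t' with h | h
          · exact (N2 j (R.covR (by omega : R.κ j = s + 1) t2' h cj)).2 ⟨c3, c2⟩
          · have u1 := R.covL a1 t1' h ci
            have u2 := R.covR (by omega : R.κ i' = s + 1) t2 h ci'
            have u3 := R.covR (by omega : R.κ j' = s + 1) t2 h cj'
            rcases lt_or_gt_of_ne (ne i j' (k1.trans (k2.trans k3)) t ci u3) with m | m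
            · exact (N1 j' u3).1 ⟨m, c3⟩
            · rcases lt_or_gt_of_ne (ne i i' k1 t ci u2) with m' | m'
              · exact (N2 i u1).2 ⟨m, m'⟩
              · exact (N1 i' u2).2 ⟨c2, m'⟩
    · rcases R.key_lt k2 with ⟨a2, b2, c2⟩ | ⟨a2, b2⟩ | ⟨a2, b2, c2⟩
      · exact b1 a2
      · exact b1 a2
      · rcases R.key_lt k3 with ⟨a3, b3, c3⟩ | ⟨a3, b3⟩ | ⟨a3, b3, c3⟩
        · exact b2 a3
        · exact b2 a3
        · rcases le_total t t' with h | h
          · exact (N2 j (R.covR (by omega : R.κ j = s + 1) t2' h cj)).2 ⟨c3, c2⟩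
          · exact (N1 i' (R.covR (by omega : R.κ i' = s + 1) t2 h ci')).2 ⟨c2, c1⟩
  same := by
    intro i hi j hj hlt hσ hno ha hb
    rcases R.cons_of (mem_filter.1 hi).2 (mem_filter.1 hj).2 hlt hσ hno with h | h
    · exact hB i j (R.cons_sees h) ha hb
    · exact (hB j i (R.cons_sees h) hb ha).symm
  inP := by
    intro i hi j hj hlt hσ hno hab
    rcases R.cons_of (mem_filter.1 hi).2 (mem_filter.1 hj).2 hlt hσ hno with h | h
    · exact ⟨i, j, h, hab, rfl⟩
    · exact ⟨j, i, h, fun h => hab h.symm, Sym2.eq_swap⟩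

end Arr

end Pool.Agent.H.MP_f867b0_co
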