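import Pool.Agent.H.MP_f867b0_co.B

set_option autoImplicit false

namespace Pool.Agent.H.MP_f867b0_co

open Finset Classical

namespace Arr

variable {ι Λ : Type*} (R : Arr ι Λ)

lemma sees_C {i j : ι} (hs : R.sees i j) (hc : ¬ (R.A (R.own i) ↔ R.A (R.own j))) :
    ∃ s : ℤ, (R.κ i = s ∨ R.κ i = s + 1) ∧ (R.κ j = s ∨ R.κ j = s + 1) ∧ R.C s i j ∧ R.C s j i := by
  obtain ⟨u, v, huv, hi, hj, hno⟩ := hs
  have f1 := Int.floor_le u
  have f2 := Int.lt_floor_add_one u
  set s := ⌊u⌋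
  obtain ⟨t, t1, t2⟩ := exists_between (lt_min huv f2)
  have t3 : t < v := t2.trans_le (min_le_left _ _)
  have t4 : t < s + 1 := t2.trans_le (min_le_right _ _)
  have kk : ∀ k, R.x k ≤ u → v ≤ R.x k + 1 → R.κ k = s ∨ R.κ k = s + 1 := by
    intro k a b
    have h1 : R.κ k ≤ s + 1 := Int.ceil_le.2 (by push_cast; linarith)
    have h2 : s - 1 < R.κ k := Int.lt_ceil.2 (by push_cast; linarith)
    omega
  have N : ∀ k, R.cov k t → ¬ (R.h i < R.h k ∧ R.h k < R.h j) ∧ ¬ (R.h j < R.h k ∧ R.h k < R.h i) := by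
    intro k hk
    constructor
    · rintro ⟨a, b⟩
      exact hno k (fun e => lt_irrefl _ (e ▸ a)) (fun e => lt_irrefl _ (e ▸ b)) t t1.le t3.le hk
        (Set.mem_uIcc.2 (Or.inl ⟨a.le, b.le⟩))
    · rintro ⟨a, b⟩
      exact hno k (fun e => lt_irrefl _ (e ▸ b)) (fun e => lt_irrefl _ (e ▸ a)) t t1.le t3.le hk
        (Set.mem_uIcc.2 (Or.inr ⟨a.le, b.le⟩))
  have ci : R.cov i t := ⟨by linarith [hi.1], by linarith [hi.2]⟩
  have cj : R.cov j t := ⟨by linarith [hj.1], by linarith [hj.2]⟩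
  exact ⟨s, kk i hi.1 hi.2, kk j hj.1 hj.2, ⟨hc, t, by linarith, t4, ci, cj, N⟩,
    ⟨fun h => hc h.symm, t, by linarith, t4, cj, ci, fun k hk => (N k hk).symm⟩⟩

lemma cons_up {i j j' : ι} (h : R.Cons i j) (h' : R.Cons i j') : j = j' := by
  by_contra hne
  rcases lt_or_gt_of_ne (R.hne hne (h.1.symm.trans h'.1)) with m | m
  · exact h'.2.2 j h.1.symm ⟨h.2.1, m⟩
  · exact h.2.2 j' h'.1.symm ⟨h'.2.1, m⟩

lemma cons_down {i i' j : ι} (h : R.Cons i j) (h' : R.Cons i' j) : i = i' := by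
  by_contra hne
  rcases lt_or_gt_of_ne (R.hne hne (h.1.trans h'.1.symm)) with m | m
  · exact h.2.2 i' (h'.1.trans h.1.symm) ⟨m, h'.2.1⟩
  · exact h'.2.2 i (h.1.trans h'.1.symm) ⟨m, h.2.1⟩

lemma cardP [Fintype ι] (T : Finset (Sym2 Λ)) (hT : ∀ e ∈ T, e ∈ R.P) :
    T.card ≤ 2 * (univ.filter fun i => R.A (R.own i)).card := by
  let Q1 : Finset (ι × ι) := univ.filter fun p => R.Cons p.1 p.2 ∧ R.A (R.own p.1)
  let Q2 : Finset (ι × ι) := univ.filter fun p => R.Cons p.1 p.2 ∧ R.A (R.own p.2)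
  have c1 : Q1.card ≤ (univ.filter fun i => R.A (R.own i)).card := by
    refine card_le_card_of_injOn Prod.fst (fun p hp => ?_) (fun p hp q hq e => ?_)
    · exact mem_coe.2 (mem_filter.2 ⟨mem_univ _, (mem_filter.1 hp).2.2⟩)
    · have a := (mem_filter.1 hp).2.1
      have b := (mem_filter.1 hq).2.1
      exact Prod.ext e (R.cons_up a (e ▸ b))
  have c2 : Q2.card ≤ (univ.filter fun i => R.A (R.own i)).card := by
    refine card_le_card_of_injOn Prod.snd (fun p hp => ?_) (fun p hp q hq e => ?_)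
    · exact mem_coe.2 (mem_filter.2 ⟨mem_univ _, (mem_filter.1 hp).2.2⟩)
    · have a := (mem_filter.1 hp).2.1
      have b := (mem_filter.1 hq).2.1
      exact Prod.ext (R.cons_down a (e ▸ b)) e
  have : T ⊆ (Q1 ∪ Q2).image fun p => s(R.own p.1, R.own p.2) := by
    intro e he
    obtain ⟨i, j, h, hc, rfl⟩ := hT e he
    refine mem_image.2 ⟨(i, j), ?_, rfl⟩
    by_cases ha : R.A (R.own i)
    · exact mem_union_left _ (mem_filter.2 ⟨mem_univ _, h, ha⟩)
    · refine mem_union_right _ (mem_filter.2 ⟨mem_univ _, h, ?_⟩)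
      by_contra hb
      exact hc ⟨fun h => (ha h).elim, fun h => (hb h).elim⟩
  have c3 := (card_le_card this).trans (card_image_le.trans (card_union_le _ _))
  omega

theorem total [Fintype ι]
    (hB : ∀ i j, R.sees i j → ¬ R.A (R.own i) → ¬ R.A (R.own j) → R.own i = R.own j)
    (T : Finset (Sym2 Λ))
    (hT : ∀ e ∈ T, ∃ i j, R.sees i j ∧ ¬ (R.A (R.own i) ↔ R.A (R.own j)) ∧ s(R.own i, R.own j) = e) :
    T.card ≤ 4 * (univ.filter fun i => R.A (R.own i)).card := by
  set NA := univ.filter fun i => R.A (R.own i) with hNA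
  let Z : Finset ℤ := univ.image R.κ ∪ univ.image fun i => R.κ i - 1
  let F : ℤ → Finset (Sym2 Λ) := fun s => T.filter fun e => e ∉ R.P ∧ ∃ i ∈ (R.strip hB s).S,
    ∃ j ∈ (R.strip hB s).S, R.key s i < R.key s j ∧ R.C s i j ∧ s(R.own i, R.own j) = e
  have h1 : T ⊆ T.filter (fun e => e ∈ R.P) ∪ Z.biUnion F := by
    intro e he
    by_cases hP : e ∈ R.P
    · exact mem_union_left _ (mem_filter.2 ⟨he, hP⟩)
    · refine mem_union_right _ ?_
      obtain ⟨i, j, hs, hc, rfl⟩ := hT e he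
      obtain ⟨s, a, b, c, d⟩ := R.sees_C hs hc
      have hi : i ∈ (R.strip hB s).S := mem_filter.2 ⟨mem_univ _, a⟩
      have hj : j ∈ (R.strip hB s).S := mem_filter.2 ⟨mem_univ _, b⟩
      refine mem_biUnion.2 ⟨s, ?_, mem_filter.2 ⟨he, hP, ?_⟩⟩
      · rcases a with a | a
        · exact mem_union_left _ (mem_image.2 ⟨i, mem_univ _, a⟩)
        · exact mem_union_right _ (mem_image.2 ⟨i, mem_univ _, by omega⟩)
      · have hne : R.key s i ≠ R.key s j := fun h => by
          have e := (R.strip hB s).inj i hi j hj h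
          subst e
          exact hc Iff.rfl
        rcases lt_or_gt_of_ne hne with m | m
        · exact ⟨i, hi, j, hj, m, c, rfl⟩
        · exact ⟨j, hj, i, hi, m, d, Sym2.eq_swap⟩
  have h2 : (T.filter fun e => e ∈ R.P).card ≤ 2 * NA.card :=
    R.cardP (T.filter fun e => e ∈ R.P) fun e he => (mem_filter.1 he).2
  have h3 : ∀ s, (F s).card ≤ (NA.filter fun i => R.κ i = s).card + (NA.filter fun i => R.κ i - 1 = s).card := by
    intro s
    refine ((R.strip hB s).bound (F s) fun e he => (mem_filter.1 he).2).trans ?_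
    refine le_trans (card_le_card fun k hk => ?_) (card_union_le _ _)
    have a := mem_filter.1 hk
    have b : k ∈ NA := mem_filter.2 ⟨mem_univ _, a.2⟩
    rcases (mem_filter.1 a.1).2 with c | c
    · exact mem_union_left _ (mem_filter.2 ⟨b, c⟩)
    · exact mem_union_right _ (mem_filter.2 ⟨b, by omega⟩)
  have h4 : (Z.biUnion F).card ≤ 2 * NA.card := by
    refine card_biUnion_le.trans ((sum_le_sum fun s _ => h3 s).trans ?_)
    rw [sum_add_distrib]
    have a := card_eq_sum_card_fiberwise (s := NA) (t := Z) (f := R.κ) fun i _ =>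
      mem_coe.2 (mem_union_left _ (mem_image.2 ⟨i, mem_univ _, rfl⟩))
    have b := card_eq_sum_card_fiberwise (s := NA) (t := Z) (f := fun i => R.κ i - 1) fun i _ =>
      mem_coe.2 (mem_union_right _ (mem_image.2 ⟨i, mem_univ _, rfl⟩))
    omega
  have h5 := (card_le_card h1).trans (card_union_le _ _)
  omega

end Arr

end Pool.Agent.H.MP_f867b0_co
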